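import Mathlib

/- Basic tools: balls of a group action, measurability of relations. -/

open Set
open scoped Pointwise

namespace Pool.Agent.Lib.MP_5ff138_lc

variable {G X : Type*} [Group G] [MulAction G X]

/-- `y` lies in the ball `S ^ n • x`. -/
def Near (S : Set G) (n : ℕ) (x y : X) : Prop := ∃ γ ∈ S ^ n, γ • x = y

/-- finite symmetric set containing the identity -/
structure Good (S : Set G) : Prop where
  fin : S.Finite
  one : (1 : G) ∈ S
  inv : ∀ s ∈ S, s⁻¹ ∈ S

theorem Good.inv_eq {S : Set G} (h : Good S) : S⁻¹ = S := by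
  ext s
  constructor
  · intro hs
    simpa using h.inv _ hs
  · intro hs
    simpa using h.inv _ hs

theorem Good.inv_pow {S : Set G} (h : Good S) {n : ℕ} {γ : G} (hγ : γ ∈ S ^ n) : γ⁻¹ ∈ S ^ n := by
  have : (S ^ n)⁻¹ = S ^ n := by rw [← _root_.inv_pow, h.inv_eq]
  rw [← this]
  simpa using hγ

theorem mul_mem_pow {S : Set G} {m n : ℕ} {a b : G} (ha : a ∈ S ^ m) (hb : b ∈ S ^ n) :
    a * b ∈ S ^ (m + n) := by
  rw [pow_add]
  exact Set.mul_mem_mul ha hb

theorem Good.pow_mono {S : Set G} (h : Good S) {m n : ℕ} (hmn : m ≤ n) : S ^ m ⊆ S ^ n :=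
  Set.pow_subset_pow_right h.one hmn

theorem finite_pow {S : Set G} (h : S.Finite) : ∀ n : ℕ, (S ^ n).Finite
  | 0 => by simp
  | n + 1 => by rw [pow_succ]; exact (finite_pow h n).mul h

theorem Good.pow {S : Set G} (h : Good S) (n : ℕ) : Good (S ^ n) :=
  ⟨finite_pow h.fin n, Set.one_mem_pow h.one, fun _ hs => h.inv_pow hs⟩

theorem Near.refl {S : Set G} (h : Good S) (n : ℕ) (x : X) : Near S n x x :=
  ⟨1, Set.one_mem_pow h.one, one_smul _ _⟩

theorem Near.symm {S : Set G} (h : Good S) {n : ℕ} {x y : X} (hxy : Near S n x y) :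
    Near S n y x := by
  obtain ⟨γ, hγ, rfl⟩ := hxy
  exact ⟨γ⁻¹, h.inv_pow hγ, by simp⟩

theorem Near.trans {S : Set G} {m n : ℕ} {x y z : X} (hxy : Near S m x y) (hyz : Near S n y z) :
    Near S (m + n) x z := by
  obtain ⟨γ, hγ, rfl⟩ := hxy
  obtain ⟨δ, hδ, rfl⟩ := hyz
  exact ⟨δ * γ, by rw [add_comm]; exact mul_mem_pow hδ hγ, by rw [mul_smul]⟩

theorem Near.mono {S : Set G} (h : Good S) {m n : ℕ} (hmn : m ≤ n) {x y : X}
    (hxy : Near S m x y) : Near S n x y := by
  obtain ⟨γ, hγ, rfl⟩ := hxy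
  exact ⟨γ, h.pow_mono hmn hγ, rfl⟩

theorem Near.mono_left {S S' : Set G} (h : S ⊆ S') {n : ℕ} {x y : X}
    (hxy : Near S n x y) : Near S' n x y := by
  obtain ⟨γ, hγ, rfl⟩ := hxy
  exact ⟨γ, Set.pow_subset_pow_left h hγ, rfl⟩

theorem Near.orb {S : Set G} {n : ℕ} {x y : X} (hxy : Near S n x y) : ∃ γ : G, γ • x = y := by
  obtain ⟨γ, _, h⟩ := hxy
  exact ⟨γ, h⟩

theorem Near.finite {S : Set G} (h : Good S) (n : ℕ) (x : X) : {y | Near S n x y}.Finite := by
  have : {y | Near S n x y} = (fun γ : G => γ • x) '' (S ^ n) := by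
    ext y
    simp [Near]
  rw [this]
  exact (finite_pow h.fin n).image _

section meas

variable [MeasurableSpace X] [Countable G] [MeasurableConstSMul G X]

theorem meas_exists {Z : Type*} [MeasurableSpace Z] {Q : Z → X → Prop} {π : Z → X}
    (hπ : Measurable π) (hQ : Measurable fun p : Z × X => Q p.1 p.2)
    (horb : ∀ z y, Q z y → ∃ γ : G, γ • π z = y) : Measurable fun z => ∃ y, Q z y := by
  have : (fun z => ∃ y, Q z y) = fun z => ∃ γ : G, Q z (γ • π z) := by
    funext z
    apply propext
    constructor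
    · rintro ⟨y, hy⟩
      obtain ⟨γ, rfl⟩ := horb z y hy
      exact ⟨γ, hy⟩
    · rintro ⟨γ, h⟩
      exact ⟨_, h⟩
  rw [this]
  refine Measurable.exists fun γ => ?_
  exact hQ.comp (measurable_id.prodMk (hπ.const_smul γ))

theorem meas_forall {Z : Type*} [MeasurableSpace Z] {Q P : Z → X → Prop} {π : Z → X}
    (hπ : Measurable π) (hQ : Measurable fun p : Z × X => Q p.1 p.2)
    (hP : Measurable fun p : Z × X => P p.1 p.2)
    (horb : ∀ z y, Q z y → ∃ γ : G, γ • π z = y) : Measurable fun z => ∀ y, Q z y → P z y := by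
  have : (fun z => ∀ y, Q z y → P z y) = fun z => ¬ ∃ y, Q z y ∧ ¬ P z y := by
    funext z
    simp
  rw [this]
  exact (meas_exists (Q := fun z y => Q z y ∧ ¬ P z y) hπ (hQ.and hP.not)
    fun z y h => horb z y h.1).not

variable [MeasurableEq X]

theorem meas_near {Z : Type*} [MeasurableSpace Z] (S : Set G) (n : ℕ) {f g : Z → X}
    (hf : Measurable f) (hg : Measurable g) : Measurable fun z => Near S n (f z) (g z) := by
  unfold Near
  refine Measurable.exists fun γ => ?_
  exact measurable_const.and ((hf.const_smul γ).eq hg)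

end meas

theorem meas_comp2 {Y Z : Type*} [MeasurableSpace Y] [MeasurableSpace Z] {R : Y → Y → Prop}
    (hR : Measurable fun p : Y × Y => R p.1 p.2) {f g : Z → Y} (hf : Measurable f)
    (hg : Measurable g) : Measurable fun z => R (f z) (g z) :=
  hR.comp (hf.prodMk hg)

theorem meas_nat_of_pred {Z : Type*} [MeasurableSpace Z] {f : Z → ℕ}
    (h : ∀ n, Measurable fun z => f z = n) : Measurable f :=
  measurable_to_countable' fun n => measurableSet_setOfPred.2 (h n)

theorem meas_sInf {Z : Type*} [MeasurableSpace Z] {p : Z → ℕ → Prop}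
    (h : ∀ n, Measurable fun z => p z n) : Measurable fun z => sInf {n | p z n} := by
  refine meas_nat_of_pred fun n => ?_
  have : (fun z => sInf {n | p z n} = n) =
      fun z => (p z n ∧ ∀ m, m < n → ¬ p z m) ∨ (n = 0 ∧ ∀ m, ¬ p z m) := by
    funext z
    apply propext
    constructor
    · intro h
      by_cases hne : {n | p z n}.Nonempty
      · left
        refine ⟨h ▸ Nat.sInf_mem hne, fun m hm => ?_⟩
        exact Nat.notMem_of_lt_sInf (h ▸ hm)
      · right
        rw [Set.not_nonempty_iff_eq_empty] at hne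
        refine ⟨by rw [← h, hne, Nat.sInf_empty], fun m hm => ?_⟩
        have : m ∈ {n | p z n} := hm
        rw [hne] at this
        exact this
    · rintro (⟨h1, h2⟩ | ⟨h1, h2⟩)
      · apply le_antisymm (Nat.sInf_le h1)
        by_contra hlt
        push Not at hlt
        exact h2 _ hlt (Nat.sInf_mem (⟨n, h1⟩ : {n | p z n}.Nonempty))
      · have : {n | p z n} = ∅ := by
          ext m
          simp [h2 m]
        rw [this, Nat.sInf_empty, h1]
  rw [this]
  refine ((h n).and (Measurable.forall fun m => measurable_const.imp (h m).not)).or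
    (measurable_const.and (Measurable.forall fun m => (h m).not))

open Classical in
theorem meas_count {Z : Type*} [MeasurableSpace Z] {p : Z → ℕ → Prop} (s : Finset ℕ)
    (h : ∀ n ∈ s, Measurable fun z => p z n) :
    Measurable fun z => (s.filter fun n => p z n).card := by
  simp_rw [Finset.card_filter]
  refine Finset.measurable_sum s fun n hn => ?_
  exact Measurable.ite (measurableSet_setOfPred.2 (h n hn)) measurable_const measurable_const

/-- The conclusion: the orbit relation is an increasing union of measurable finite equivalence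
relations. -/
def HF (G X : Type*) [Group G] [MulAction G X] [MeasurableSpace X] : Prop :=
  ∃ R : ℕ → Setoid X, Monotone R ∧ (∀ n, MeasurableSet {p : X × X | R n p.1 p.2}) ∧
    (∀ n x, {y | R n x y}.Finite) ∧ ∀ x y, (∃ γ : G, γ • x = y) ↔ ∃ n, R n x y

/-- Coloured partitions with `D` colours at every scale. -/
def CP (X : Type*) [MulAction G X] [MeasurableSpace X] (S : Set G) (D : ℕ) : Prop :=
  ∀ r : ℕ, ∃ (b : ℕ) (R : X → X → Prop) (col : X → ℕ), Equivalence R ∧
    Measurable (fun p : X × X => R p.1 p.2) ∧ Measurable col ∧ (∀ x, col x < D) ∧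
    (∀ x y, R x y → Near S b x y) ∧ (∀ x y, R x y → col x = col y) ∧
    ∀ x y, col x = col y → Near S r x y → R x y

end Pool.Agent.Lib.MP_5ff138_lc
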