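import Mathlib

/- Definitions for the statement on hyperfiniteness of subshifts. -/

open scoped Pointwise

namespace Pool.Agent.Lib.MP_5ff138_lc

/-- The tower function `1, 2, 4, 16, 65536, ...`. -/
def tow : ℕ → ℕ
  | 0 => 1
  | n + 1 => 2 ^ tow n

/-- For every finite `S` there is a subgroup `Δ` normalized by `S` such that the products `S ^ n`
have polynomial growth modulo `Δ`, and the subgroups generated by `Δ ∩ S ^ m` are finite, of
order growing slower than a tower along every linear scale. -/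
def Tame (G : Type*) [Group G] : Prop :=
  ∀ S : Set G, S.Finite → ∃ Δ : Subgroup G,
    (∀ s ∈ S, s ∈ Subgroup.normalizer (Δ : Set G)) ∧
    (∃ C d : ℕ, ∀ n : ℕ, ((fun g : G => (g : G ⧸ Δ)) '' (S ^ n)).ncard ≤ C * (n + 1) ^ d) ∧
    ∀ a : ℕ, ∃ n : ℕ, 1 ≤ n ∧
      (Subgroup.closure ((Δ : Set G) ∩ S ^ (a * n)) : Set G).Finite ∧
      (Subgroup.closure ((Δ : Set G) ∩ S ^ (a * n)) : Set G).ncard ≤ tow n

/-- The shift action on `(I ^ ℕ) ^ G`. -/
def shift {G : Type*} [Group G] (g : G) (x : G → ℕ → unitInterval) : G → ℕ → unitInterval :=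
  fun h => x (g⁻¹ * h)

/-- The space of subshifts: nonempty closed shift-invariant sets. -/
def Sh (G : Type*) [Group G] : Set (Set (G → ℕ → unitInterval)) :=
  {F | F.Nonempty ∧ IsClosed F ∧ ∀ g : G, ∀ x ∈ F, shift g x ∈ F}

/-- `E` is an increasing union of measurable equivalence relations with finite classes. -/
def Hyperfinite {Y : Type*} [MeasurableSpace Y] (E : Y → Y → Prop) : Prop :=
  ∃ R : ℕ → Setoid Y, Monotone R ∧ (∀ n, MeasurableSet {p : Y × Y | R n p.1 p.2}) ∧
    (∀ n y, {z | R n y z}.Finite) ∧ ∀ y z, E y z ↔ ∃ n, R n y z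

/-- The subshifts whose orbit equivalence relation is hyperfinite for the Borel structure. -/
def H (G : Type*) [Group G] : Set (Set (G → ℕ → unitInterval)) :=
  {F | F ∈ Sh G ∧ @Hyperfinite F (borel F) fun y z => ∃ g : G, shift g y.1 = z.1}

end Pool.Agent.Lib.MP_5ff138_lc
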