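import Pool.Agent.Lib.MP_5ff138_lc.Partition

/- Counting lemmas for the examples. -/

open Set
open scoped Pointwise

namespace Pool.Agent.Lib.MP_5ff138_lc

theorem lt_tow : ∀ n, n < tow n
  | 0 => Nat.one_pos
  | n + 1 => (Nat.succ_le_of_lt (lt_tow n)).trans_lt Nat.lt_two_pow_self

theorem pow_two_pow_le (q e : ℕ) : q ^ 2 ^ e ≤ 2 ^ 2 ^ (q + e) := by
  have h : q ≤ 2 ^ q := Nat.lt_two_pow_self.le
  calc q ^ 2 ^ e ≤ (2 ^ q) ^ 2 ^ e := Nat.pow_le_pow_left h _
    _ = 2 ^ (q * 2 ^ e) := by rw [← pow_mul]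
    _ ≤ _ := Nat.pow_le_pow_right (by norm_num) (by rw [pow_add]; exact Nat.mul_le_mul_right _ h)

theorem exists_tow (q s a : ℕ) (hq : 1 ≤ q) : ∃ n, 1 ≤ n ∧ q ^ q ^ s ^ (a * n) ≤ tow n := by
  set c := 2 * q + 4 * (s * a) with hc
  refine ⟨2 * c + 4, by omega, ?_⟩
  set e := s * (a * (2 * c + 4)) with he
  have h1 : s ^ (a * (2 * c + 4)) ≤ 2 ^ e := by
    rw [he, pow_mul 2 s]
    exact Nat.pow_le_pow_left Nat.lt_two_pow_self.le _
  have h2 : q ^ s ^ (a * (2 * c + 4)) ≤ 2 ^ 2 ^ (q + e) :=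
    (Nat.pow_le_pow_right hq h1).trans (pow_two_pow_le q e)
  have h3 : q + 2 ^ (q + e) ≤ 2 ^ (q + (q + e)) := by
    have h4 : q + 1 ≤ 2 ^ q := Nat.lt_two_pow_self
    have h5 : 1 ≤ 2 ^ (q + e) := Nat.one_le_two_pow
    rw [pow_add 2 q (q + e)]
    nlinarith
  have h6 : q + (q + e) ≤ tow (2 * c + 1) := by
    have h7 : c + 1 ≤ 2 ^ c := Nat.lt_two_pow_self
    have h8 : (c + 1) * (c + 1) ≤ 2 ^ (2 * c) := by
      rw [two_mul, pow_add]
      exact Nat.mul_le_mul h7 h7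
    have h9 : 2 ^ (2 * c) ≤ tow (2 * c + 1) :=
      Nat.pow_le_pow_right (by norm_num) (lt_tow _).le
    have h10 : e = 2 * (s * a) * c + 4 * (s * a) := by rw [he]; ring
    have h11 : 2 * (s * a) * c ≤ c * c := Nat.mul_le_mul_right _ (by omega)
    nlinarith
  calc _ ≤ q ^ 2 ^ 2 ^ (q + e) := Nat.pow_le_pow_right hq h2
    _ ≤ 2 ^ 2 ^ (q + 2 ^ (q + e)) := pow_two_pow_le _ _
    _ ≤ 2 ^ 2 ^ 2 ^ tow (2 * c + 1) := Nat.pow_le_pow_right (by norm_num)
      (Nat.pow_le_pow_right (by norm_num) (h3.trans (Nat.pow_le_pow_right (by norm_num) h6)))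
    _ = tow (2 * c + 4) := rfl

variable {G : Type*} [Group G]

theorem ncard_pow_le (S : Set G) : ∀ n : ℕ, (S ^ n).ncard ≤ S.ncard ^ n
  | 0 => by rw [pow_zero, pow_zero]; exact (Set.ncard_singleton _).le
  | n + 1 => by
    have h := Set.natCard_mul_le (s := S ^ n) (t := S)
    simp only [Nat.card_coe_set_eq] at h
    rw [pow_succ, pow_succ]
    exact h.trans (Nat.mul_le_mul_right _ (ncard_pow_le S n))

theorem closure_card_le {F : Type*} [Group F] [Finite F] {Δ : Subgroup G}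
    (hres : ∀ δ : Δ, δ ≠ 1 → ∃ φ : Δ →* F, φ δ ≠ 1) {A : Set G} (hA : A.Finite)
    (hAΔ : A ⊆ Δ) : (Subgroup.closure A : Set G).Finite ∧
      (Subgroup.closure A : Set G).ncard ≤ Nat.card F ^ Nat.card F ^ A.ncard := by
  classical
  have hle : Subgroup.closure A ≤ Δ := (Subgroup.closure_le _).2 hAΔ
  have := hA.to_subtype
  let ch : (A → F) → (Δ →* F) := fun f =>
    if h : ∃ φ : Δ →* F, ∀ x : A, φ ⟨x, hAΔ x.2⟩ = f x then h.choose else 1
  let Ψ : Subgroup.closure A → (A → F) → F := fun κ f => ch f ⟨κ, hle κ.2⟩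
  have hinj : Function.Injective Ψ := by
    intro κ κ' e
    by_contra hne
    obtain ⟨φ, hφ⟩ := hres ((⟨κ, hle κ.2⟩ : Δ)⁻¹ * ⟨κ', hle κ'.2⟩) (by
      intro h
      rw [inv_mul_eq_one] at h
      exact hne (Subtype.ext (congrArg (fun x : Δ => (x : G)) h)))
    have hex : ∃ ψ : Δ →* F, ∀ x : A, ψ ⟨x, hAΔ x.2⟩ = (fun x : A => φ ⟨x, hAΔ x.2⟩) x :=
      ⟨φ, fun _ => rfl⟩
    have hch : ∀ x (hx : x ∈ Subgroup.closure A),
        ch (fun x : A => φ ⟨x, hAΔ x.2⟩) ⟨x, hle hx⟩ = φ ⟨x, hle hx⟩ := by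
      intro x hx
      induction hx using Subgroup.closure_induction with
      | mem x hx =>
        simp only [ch]
        rw [dif_pos hex]
        exact hex.choose_spec ⟨x, hx⟩
      | one => exact (map_one _).trans (map_one φ).symm
      | mul x y hx hy ihx ihy =>
        have : (⟨x * y, hle (Subgroup.mul_mem _ hx hy)⟩ : Δ) = ⟨x, hle hx⟩ * ⟨y, hle hy⟩ := rfl
        rw [this, map_mul, map_mul, ihx, ihy]
      | inv x hx ihx =>
        have : (⟨x⁻¹, hle (Subgroup.inv_mem _ hx)⟩ : Δ) = ⟨x, hle hx⟩⁻¹ := rfl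
        rw [this, map_inv, map_inv, ihx]
    have e' := congrFun e (fun x : A => φ ⟨x, hAΔ x.2⟩)
    simp only [Ψ] at e'
    rw [hch _ κ.2, hch _ κ'.2] at e'
    apply hφ
    rw [map_mul, map_inv, e', inv_mul_cancel]
  refine ⟨Set.finite_coe_iff.1 (Finite.of_injective Ψ hinj), ?_⟩
  have h := Nat.card_le_card_of_injective Ψ hinj
  rw [Nat.card_fun, Nat.card_fun, Nat.card_coe_set_eq] at h
  exact h

theorem comm_growth {Q : Type*} [CommGroup Q] {T : Set Q} (hT : T.Finite) (n : ℕ) :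
    (T ^ n).ncard ≤ (n + 1) ^ T.ncard := by
  classical
  have := hT.fintype
  have key : ∀ n, ∀ γ ∈ T ^ n, ∃ a : T → ℕ, (∀ t, a t ≤ n) ∧ γ = ∏ t : T, (t : Q) ^ a t := by
    intro n
    induction n with
    | zero =>
      intro γ hγ
      rw [pow_zero, Set.mem_one] at hγ
      exact ⟨0, fun _ => le_rfl, by simp [hγ]⟩
    | succ n ih =>
      rw [pow_succ]
      rintro _ ⟨γ, hγ, t, ht, rfl⟩
      obtain ⟨a, ha, rfl⟩ := ih γ hγ
      refine ⟨a + Pi.single ⟨t, ht⟩ 1, fun s => ?_, ?_⟩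
      · have := ha s
        simp only [Pi.add_apply, Pi.single_apply]
        split_ifs <;> omega
      · simp only [Pi.add_apply, pow_add, Finset.prod_mul_distrib]
        congr 1
        rw [Finset.prod_eq_single ⟨t, ht⟩]
        · simp
        · intro b _ hb
          simp [hb]
        · simp
  have hsub : T ^ n ⊆ Set.range fun a : T → Fin (n + 1) => ∏ t : T, (t : Q) ^ (a t : ℕ) := by
    intro γ hγ
    obtain ⟨a, ha, rfl⟩ := key n γ hγ
    exact ⟨fun t => ⟨a t, Nat.lt_succ_of_le (ha t)⟩, rfl⟩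
  refine (Set.ncard_le_ncard hsub (Set.finite_range _)).trans ?_
  rw [← Set.image_univ]
  refine (Set.ncard_image_le Set.finite_univ).trans ?_
  rw [Set.ncard_univ, Nat.card_fun, Nat.card_coe_set_eq]
  simp

theorem tame_of_res {Q F : Type*} [Group Q] [Group F] [Finite F] (π : G →* Q)
    (hQ : ∀ T : Set Q, T.Finite → ∃ C d : ℕ, ∀ n : ℕ, (T ^ n).ncard ≤ C * (n + 1) ^ d)
    (hres : ∀ δ : π.ker, δ ≠ 1 → ∃ φ : π.ker →* F, φ δ ≠ 1) : Tame G := by
  intro S hS
  refine ⟨π.ker, fun s _ => by simp [Subgroup.normalizer_eq_top], ?_, fun a => ?_⟩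
  · obtain ⟨C, d, h⟩ := hQ (π '' S) (hS.image _)
    refine ⟨C, d, fun n => le_trans (le_of_eq ?_) (h n)⟩
    rw [← Set.image_pow, ← Set.ncard_image_of_injective _ (QuotientGroup.kerLift_injective π),
      Set.image_image]
    rfl
  · obtain ⟨n, hn, h⟩ := exists_tow (Nat.card F) S.ncard a Nat.card_pos
    obtain ⟨h1, h2⟩ := closure_card_le hres (A := (π.ker : Set G) ∩ S ^ (a * n))
      ((finite_pow hS _).inter_of_right _) Set.inter_subset_left
    refine ⟨n, hn, h1, h2.trans (le_trans ?_ h)⟩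
    refine Nat.pow_le_pow_right Nat.card_pos (Nat.pow_le_pow_right Nat.card_pos ?_)
    exact (Set.ncard_le_ncard Set.inter_subset_right (finite_pow hS _)).trans (ncard_pow_le S _)

theorem H_eq_Sh [Countable G] (hG : Tame G) : H G = Sh G := by
  refine Set.Subset.antisymm (fun F hF => hF.1) fun F hF => ⟨hF, ?_⟩
  let _ : MeasurableSpace F := borel F
  have _ : BorelSpace F := ⟨rfl⟩
  let _ : MulAction G F :=
    { smul := fun g x => ⟨shift g x.1, hF.2.2 g x.1 x.2⟩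
      one_smul := fun x => Subtype.ext (funext fun h => by
        change x.1 (1⁻¹ * h) = x.1 h
        simp)
      mul_smul := fun a b x => Subtype.ext (funext fun h => by
        change x.1 ((a * b)⁻¹ * h) = x.1 (b⁻¹ * (a⁻¹ * h))
        simp [mul_assoc]) }
  have _ : MeasurableConstSMul G F := ⟨fun g => Continuous.measurable (by
    refine Continuous.subtype_mk (continuous_pi fun h => ?_) _
    exact (continuous_apply _).comp continuous_subtype_val)⟩
  obtain ⟨R, h1, h2, h3, h4⟩ : HF G F := hf_of_tame hG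
  refine ⟨R, h1, h2, h3, fun y z => ?_⟩
  rw [← h4]
  exact exists_congr fun g => ⟨fun h => Subtype.ext h, fun h => congrArg Subtype.val h⟩

end Pool.Agent.Lib.MP_5ff138_lc
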