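import Pool.Agent.Lib.MP_5ff138_lc.Basic

/- Greedy colourings, Cole-Vishkin colour reduction and invariant marker sets. -/

open Set
open scoped Pointwise

namespace Pool.Agent.Lib.MP_5ff138_lc

variable {G X : Type*} [Group G] [MulAction G X]

/-- iterated greedy colouring along the levels of `f` -/
noncomputable def gr (T : Set G) (f : X → ℕ) : ℕ → X → ℕ
  | 0 => fun _ => 0
  | j + 1 => fun x => sInf {v | ∀ γ ∈ T, f (γ • x) < f x → gr T f j (γ • x) ≠ v}

theorem gr_stab (T : Set G) (f : X → ℕ) :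
    ∀ j j' x, f x < j → f x < j' → gr T f j x = gr T f j' x := by
  intro j
  induction j with
  | zero => intro j' x h; omega
  | succ j ih =>
    intro j' x h h'
    obtain ⟨j', rfl⟩ : ∃ i, j' = i + 1 := ⟨j' - 1, by omega⟩
    simp only [gr]
    congr 1
    ext v
    refine forall₂_congr fun γ _ => forall_congr' fun hlt => ?_
    rw [ih j' _ (by omega) (by omega)]

theorem gr_inv (T : Set G) (f : X → ℕ) (Rl : ℕ → X → X → Prop) (m : ℕ)
    (hf : ∀ i ≤ m, ∀ x y, Rl i x y → f x = f y)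
    (h1 : ∀ i x y, Rl i x y → ∀ γ ∈ T, ∃ γ' ∈ T, Rl (i + 1) (γ • x) (γ' • y))
    (h2 : ∀ i x y, Rl i x y → ∀ γ' ∈ T, ∃ γ ∈ T, Rl (i + 1) (γ • x) (γ' • y)) :
    ∀ j i x y, i + j ≤ m → Rl i x y → gr T f j x = gr T f j y := by
  intro j
  induction j with
  | zero => intros; rfl
  | succ j ih =>
    intro i x y hij hxy
    simp only [gr]
    congr 1
    ext v
    have e := hf i (by omega) x y hxy
    constructor
    · intro h γ' hγ' hlt
      obtain ⟨γ, hγ, hr⟩ := h2 i x y hxy γ' hγ'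
      rw [← ih (i + 1) _ _ (by omega) hr]
      exact h γ hγ (by rw [hf (i + 1) (by omega) _ _ hr, e]; exact hlt)
    · intro h γ hγ hlt
      obtain ⟨γ', hγ', hr⟩ := h1 i x y hxy γ hγ
      rw [ih (i + 1) _ _ (by omega) hr]
      exact h γ' hγ' (by rw [← hf (i + 1) (by omega) _ _ hr, ← e]; exact hlt)

theorem gr_meas [MeasurableSpace X] [Countable G] [MeasurableConstSMul G X] (T : Set G)
    {f : X → ℕ} (hf : Measurable f) : ∀ j, Measurable (gr T f j) := by
  intro j
  induction j with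
  | zero => exact measurable_const
  | succ j ih =>
    refine meas_sInf (p := fun x v => ∀ γ ∈ T, f (γ • x) < f x → gr T f j (γ • x) ≠ v) fun v => ?_
    refine Measurable.forall fun γ => measurable_const.imp (Measurable.imp ?_ ?_)
    · exact measurableSet_setOfPred.1 (measurableSet_lt (hf.comp (measurable_const_smul γ)) hf)
    · exact ((ih.comp (measurable_const_smul γ)).eq measurable_const).not

/-- the greedy colouring -/
noncomputable def gc (T : Set G) (f : X → ℕ) (x : X) : ℕ := gr T f (f x + 1) x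

theorem gc_eq (T : Set G) (f : X → ℕ) (x : X) :
    gc T f x = sInf {v | ∀ γ ∈ T, f (γ • x) < f x → gc T f (γ • x) ≠ v} := by
  conv_lhs => simp only [gc, gr]
  congr 1
  ext v
  refine forall₂_congr fun γ _ => forall_congr' fun hlt => ?_
  rw [gc, gr_stab T f (f x) (f (γ • x) + 1) _ hlt (by omega)]

theorem gc_exists {T : Set G} (hT : T.Finite) (f : X → ℕ) (x : X) :
    ∃ v ≤ T.ncard, ∀ γ ∈ T, f (γ • x) < f x → gc T f (γ • x) ≠ v := by
  by_contra h
  push Not at h
  have hsub : Set.Iic T.ncard ⊆ (fun γ => gc T f (γ • x)) '' T := by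
    intro v hv
    obtain ⟨γ, hγ, -, h'⟩ := h v hv
    exact ⟨γ, hγ, h'⟩
  have := (Set.ncard_le_ncard hsub (hT.image _)).trans (Set.ncard_image_le hT)
  rw [← Finset.coe_Iic, Set.ncard_coe_finset, Nat.card_Iic] at this
  omega

theorem gc_le {T : Set G} (hT : T.Finite) (f : X → ℕ) (x : X) : gc T f x ≤ T.ncard := by
  obtain ⟨v, hv, h⟩ := gc_exists hT f x
  rw [gc_eq]
  exact (Nat.sInf_le (s := {v | ∀ γ ∈ T, f (γ • x) < f x → gc T f (γ • x) ≠ v}) h).trans hv

theorem gc_ne {T : Set G} (hT : T.Finite) (f : X → ℕ) (x : X) {γ : G} (hγ : γ ∈ T)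
    (hlt : f (γ • x) < f x) : gc T f (γ • x) ≠ gc T f x := by
  obtain ⟨v, -, h⟩ := gc_exists hT f x
  have := Nat.sInf_mem (⟨v, h⟩ : {v | ∀ γ ∈ T, f (γ • x) < f x → gc T f (γ • x) ≠ v}.Nonempty)
  rw [← gc_eq] at this
  exact this γ hγ hlt

theorem gc_proper {T : Set G} (hT : Good T) (f : X → ℕ) (x : X) {γ : G} (hγ : γ ∈ T)
    (h : gc T f (γ • x) = gc T f x) : f (γ • x) = f x := by
  rcases lt_trichotomy (f (γ • x)) (f x) with h' | h' | h'
  · exact absurd h (gc_ne hT.fin f x hγ h')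
  · exact h'
  · have := gc_ne hT.fin f (γ • x) (hT.inv γ hγ) (by simpa using h')
    simp only [inv_smul_smul] at this
    exact absurd h.symm this

theorem gc_dom {T : Set G} (hT : Good T) (f : X → ℕ) (x : X) : ∃ γ ∈ T, gc T f (γ • x) = 0 := by
  by_cases h : gc T f x = 0
  · exact ⟨1, hT.one, by simpa using h⟩
  · by_contra h'
    push Not at h'
    apply h
    rw [gc_eq]
    exact Nat.le_zero.1 (Nat.sInf_le fun γ hγ _ => h' γ hγ)

theorem gc_inv (T : Set G) (f : X → ℕ) (Rl : ℕ → X → X → Prop) (m : ℕ)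
    (hf : ∀ i ≤ m, ∀ x y, Rl i x y → f x = f y)
    (h1 : ∀ i x y, Rl i x y → ∀ γ ∈ T, ∃ γ' ∈ T, Rl (i + 1) (γ • x) (γ' • y))
    (h2 : ∀ i x y, Rl i x y → ∀ γ' ∈ T, ∃ γ ∈ T, Rl (i + 1) (γ • x) (γ' • y))
    {x y : X} (hx : f x < m) (hxy : Rl 0 x y) : gc T f x = gc T f y := by
  unfold gc
  rw [← hf 0 (Nat.zero_le _) x y hxy]
  exact gr_inv T f Rl m hf h1 h2 _ 0 x y (by omega) hxy

theorem gc_meas [MeasurableSpace X] [Countable G] [MeasurableConstSMul G X] (T : Set G)
    {f : X → ℕ} (hf : Measurable f) : Measurable (gc T f) := by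
  have : Measurable fun p : X × ℕ => gr T f (p.2 + 1) p.1 :=
    measurable_from_prod_countable_left fun n => gr_meas T hf (n + 1)
  exact this.comp (measurable_id.prodMk hf)

/-- A countable family of measurable sets separating disjoint finite sets. -/
theorem exists_sep_family (X : Type*) [MeasurableSpace X] [MeasurableSpace.CountablySeparated X] :
    ∃ U : ℕ → Set X, (∀ n, MeasurableSet (U n)) ∧
      ∀ P Q : Set X, P.Finite → Q.Finite → Disjoint P Q → ∃ n, P ⊆ U n ∧ Disjoint Q (U n) := by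
  classical
  obtain ⟨φ, hφ, hinj⟩ := MeasurableSpace.measurable_injection_nat_bool_of_countablySeparated X
  obtain ⟨e, he⟩ := exists_surjective_nat (Finset (TopologicalSpace.countableBasis (ℕ → Bool)))
  refine ⟨fun n => φ ⁻¹' ⋃ b ∈ e n, (b : Set (ℕ → Bool)), fun n => hφ ?_, fun P Q hP hQ hd => ?_⟩
  · exact Finset.measurableSet_biUnion _ fun b _ =>
      (TopologicalSpace.isOpen_of_mem_countableBasis b.2).measurableSet
  · have : ∀ p : P, ∃ b : TopologicalSpace.countableBasis (ℕ → Bool),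
        φ p ∈ (b : Set (ℕ → Bool)) ∧ (b : Set (ℕ → Bool)) ⊆ (φ '' Q)ᶜ := by
      intro p
      obtain ⟨b, hb, h1, h2⟩ :=
        (TopologicalSpace.isBasis_countableBasis (ℕ → Bool)).exists_subset_of_mem_open
        (a := φ p) (u := (φ '' Q)ᶜ) (by
          rintro ⟨q, hq, h⟩
          exact Set.disjoint_left.1 hd p.2 (hinj h ▸ hq)) (hQ.image φ).isClosed.isOpen_compl
      exact ⟨⟨b, hb⟩, h1, h2⟩
    choose b hb1 hb2 using this
    have := hP.fintype
    obtain ⟨n, hn⟩ := he (Finset.univ.image b)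
    refine ⟨n, fun p hp => ?_, Set.disjoint_left.2 fun q hq h => ?_⟩
    · simp only [hn, Set.mem_preimage, Set.mem_iUnion]
      exact ⟨b ⟨p, hp⟩, Finset.mem_image_of_mem _ (Finset.mem_univ _), hb1 ⟨p, hp⟩⟩
    · simp only [hn, Set.mem_preimage, Set.mem_iUnion] at h
      obtain ⟨c, hc, h⟩ := h
      obtain ⟨p, -, rfl⟩ := Finset.mem_image.1 hc
      exact hb2 p h ⟨q, hq, rfl⟩

section meas

variable [MeasurableSpace X] [Countable G] [MeasurableConstSMul G X] [MeasurableEq X]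

/-- measurable colourings with `C` colours, invariant under `K`, proper for `B` modulo `Kt` -/
def Col (X : Type*) [MulAction G X] [MeasurableSpace X] (B : Set G) (Kt K : Subgroup G) (C : ℕ) :
    Prop :=
  ∃ c : X → ℕ, Measurable c ∧ (∀ x, c x < C) ∧ (∀ κ ∈ K, ∀ x, c (κ • x) = c x) ∧
    ∀ γ ∈ B, ∀ x, c (γ • x) = c x → ∃ κ ∈ Kt, κ • x = γ • x

omit [Countable G] [MeasurableConstSMul G X] [MeasurableEq X] in
theorem Col.mono {B : Set G} {Kt K K' : Subgroup G} {C C' : ℕ} (h : Col X B Kt K C) (hK : K' ≤ K)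
    (hC : C ≤ C') : Col X B Kt K' C' := by
  obtain ⟨c, h1, h2, h3, h4⟩ := h
  exact ⟨c, h1, fun x => (h2 x).trans_le hC, fun κ hκ => h3 κ (hK hκ), h4⟩

theorem col_init [MeasurableSpace.CountablySeparated X] {B : Set G} (hB : Good B) (K : Subgroup G)
    (hK : (K : Set G).Finite) : Col X B K K ((K : Set G).ncard ^ 2 * B.ncard + 1) := by
  classical
  obtain ⟨U, hU, hsep⟩ := exists_sep_family X
  set T : Set G := (K : Set G) * B * (K : Set G) with hT
  have gT : Good T := by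
    refine ⟨(hK.mul hB.fin).mul hK, ⟨1, ⟨1, K.one_mem, 1, hB.one, by simp⟩, 1, K.one_mem, by simp⟩,
      ?_⟩
    rintro _ ⟨_, ⟨a, ha, b, hb, rfl⟩, c, hc, rfl⟩
    exact ⟨_, ⟨c⁻¹, K.inv_mem hc, b⁻¹, hB.inv b hb, rfl⟩, a⁻¹, K.inv_mem ha, by simp [mul_assoc]⟩
  have TK : ∀ γ ∈ T, ∀ κ ∈ K, γ * κ ∈ T := by
    rintro _ ⟨a, ha, c, hc, rfl⟩ κ hκ
    exact ⟨a, ha, c * κ, K.mul_mem hc hκ, by simp [mul_assoc]⟩
  let p : X → ℕ → Prop := fun x n => (∀ κ ∈ K, κ • x ∈ U n) ∧
    ∀ γ ∈ T, γ • x ∈ U n → ∃ κ ∈ K, κ • x = γ • x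
  have hex : ∀ x, {n | p x n}.Nonempty := by
    intro x
    obtain ⟨n, h1, h2⟩ := hsep ((fun γ : G => γ • x) '' K)
      ((fun γ : G => γ • x) '' T \ (fun γ : G => γ • x) '' K) (hK.image _)
      ((gT.fin.image _).subset Set.sdiff_subset) Set.disjoint_sdiff_right
    refine ⟨n, fun κ hκ => h1 ⟨κ, hκ, rfl⟩, fun γ hγ h => ?_⟩
    by_contra hne
    exact Set.disjoint_left.1 h2 ⟨⟨γ, hγ, rfl⟩, hne⟩ h
  let f : X → ℕ := fun x => sInf {n | p x n}
  have fm : Measurable f := by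
    refine meas_sInf fun n => Measurable.and ?_ ?_
    · exact Measurable.forall fun κ => measurable_const.imp
        (measurableSet_setOfPred.1 (measurable_const_smul κ (hU n)))
    · refine Measurable.forall fun γ => measurable_const.imp (Measurable.imp
        (measurableSet_setOfPred.1 (measurable_const_smul γ (hU n))) ?_)
      exact Measurable.exists fun κ => measurable_const.and
        ((measurable_const_smul κ).eq (measurable_const_smul γ))
  have pK : ∀ κ ∈ K, ∀ x n, p x n → p (κ • x) n := by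
    intro κ hκ x n h
    refine ⟨fun κ' hκ' => ?_, fun γ hγ h' => ?_⟩
    · rw [← mul_smul]
      exact h.1 _ (K.mul_mem hκ' hκ)
    · rw [← mul_smul] at h'
      obtain ⟨κ', hκ', e⟩ := h.2 _ (TK γ hγ κ hκ) h'
      exact ⟨κ' * κ⁻¹, K.mul_mem hκ' (K.inv_mem hκ), by rw [← mul_smul, ← mul_smul, ← e]; simp⟩
  have fK : ∀ κ ∈ K, ∀ x, f (κ • x) = f x := by
    intro κ hκ x
    simp only [f]
    congr 1
    ext n
    exact ⟨fun h => by simpa using pK _ (K.inv_mem hκ) _ _ h, pK κ hκ x n⟩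
  refine ⟨gc T f, gc_meas T fm, fun x => Nat.lt_succ_of_le ((gc_le gT.fin f x).trans ?_),
    fun κ hκ x => ?_, fun γ hγ x h => ?_⟩
  · have h1 := Set.natCard_mul_le (s := (K : Set G) * B) (t := (K : Set G))
    have h2 := Set.natCard_mul_le (s := (K : Set G)) (t := B)
    simp only [Nat.card_coe_set_eq] at h1 h2
    calc T.ncard ≤ _ := h1
      _ ≤ (K : Set G).ncard * B.ncard * (K : Set G).ncard := Nat.mul_le_mul_right _ h2
      _ = _ := by ring
  · refine (gc_inv T f (fun _ x y => ∃ κ ∈ K, κ • x = y) (f x + 1) ?_ ?_ ?_ (Nat.lt_succ_self _)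
      ⟨κ, hκ, rfl⟩).symm
    · rintro i - x _ ⟨κ, hκ, rfl⟩
      exact (fK κ hκ x).symm
    · rintro i x _ ⟨κ, hκ, rfl⟩ γ hγ
      exact ⟨γ * κ⁻¹, TK γ hγ _ (K.inv_mem hκ), 1, K.one_mem, by simp [mul_smul]⟩
    · rintro i x _ ⟨κ, hκ, rfl⟩ γ hγ
      exact ⟨γ * κ, TK γ hγ _ hκ, 1, K.one_mem, by simp [mul_smul]⟩
  · have hγT : γ ∈ T := ⟨γ, ⟨1, K.one_mem, γ, hγ, by simp⟩, 1, K.one_mem, by simp⟩
    have e := gc_proper gT f x hγT h
    have a1 : p x (f x) := Nat.sInf_mem (hex x)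
    have a2 : p (γ • x) (f (γ • x)) := Nat.sInf_mem (hex (γ • x))
    rw [e] at a2
    exact a1.2 γ hγT (by simpa using a2.1 1 K.one_mem)

/-- the first differing bit together with its value -/
noncomputable def cv (m a b : ℕ) : Option (Fin m × Bool) := by
  classical
  exact if h : ∃ i : Fin m, a.testBit i ≠ b.testBit i then some (h.choose, a.testBit h.choose)
    else none

theorem cv_ne {m a b c : ℕ} (ha : a < 2 ^ m) (hb : b < 2 ^ m) (hab : a ≠ b) :
    cv m a b ≠ cv m b c := by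
  have h : ∃ i : Fin m, a.testBit i ≠ b.testBit i := by
    by_contra h
    push Not at h
    apply hab
    refine Nat.eq_of_testBit_eq fun i => ?_
    by_cases hi : i < m
    · exact h ⟨i, hi⟩
    · have : 2 ^ m ≤ 2 ^ i := Nat.pow_le_pow_right (by norm_num) (by omega)
      rw [Nat.testBit_lt_two_pow (ha.trans_le this), Nat.testBit_lt_two_pow (hb.trans_le this)]
  unfold cv
  rw [dif_pos h]
  split_ifs with h'
  · intro e
    simp only [Option.some.injEq, Prod.mk.injEq] at e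
    apply h.choose_spec
    rw [e.2, e.1]
  · simp

omit [MeasurableEq X] in
theorem col_step {B : Set G} (hB : B.Finite) {Kt K K' : Subgroup G} {m : ℕ} (hK : K' ≤ K)
    (hc : ∀ γ ∈ B, ∀ κ ∈ K', γ * κ * γ⁻¹ ∈ K) (h : Col X B Kt K (2 ^ m)) :
    Col X B Kt K' ((2 * m + 1) ^ B.ncard) := by
  classical
  obtain ⟨c, h1, h2, h3, h4⟩ := h
  have := hB.fintype
  let e := Fintype.equivFin (B → Option (Fin m × Bool))
  let t : X → B → Option (Fin m × Bool) := fun x γ => cv m (c x) (c ((γ : G) • x))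
  refine ⟨fun x => e (t x), ?_, fun x => ?_, fun κ hκ x => ?_, fun γ hγ x h => ?_⟩
  · have : Measurable fun x => (c x, fun γ : B => c ((γ : G) • x)) :=
      h1.prodMk (measurable_pi_lambda _ fun γ => h1.comp (measurable_const_smul _))
    exact (measurable_of_countable (fun q : ℕ × (B → ℕ) =>
      (e fun γ => cv m q.1 (q.2 γ) : ℕ))).comp this
  · refine (e (t x)).2.trans_le (le_of_eq ?_)
    simp [mul_comm]
  · have : t (κ • x) = t x := by
      funext γ
      simp only [t]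
      rw [h3 κ (hK hκ), ← h3 _ (hc γ γ.2 κ hκ) ((γ : G) • x)]
      simp [mul_smul]
    simp only [this]
  · refine h4 γ hγ x ?_
    by_contra hne
    have e1 : t (γ • x) = t x := e.injective (Fin.ext h)
    have e2 := congrFun e1 ⟨γ, hγ⟩
    exact cv_ne (h2 x) (h2 (γ • x)) (Ne.symm hne) e2.symm

end meas

end Pool.Agent.Lib.MP_5ff138_lc
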