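import Pool.Agent.Lib.MP_5ff138_lc.Basic

/- The union scheme: coloured partitions at all scales for an exhausting sequence of finite sets
give hyperfiniteness. -/

open Set
open scoped Pointwise

namespace Pool.Agent.Lib.MP_5ff138_lc

theorem exists_rec {β : Type*} [Inhabited β] (Φ : (ℕ → β) → ℕ → β)
    (hΦ : ∀ f g n, (∀ m < n, f m = g m) → Φ f n = Φ g n) : ∃ f : ℕ → β, ∀ n, f n = Φ f n := by
  classical
  let FF : ℕ → ℕ → β := fun n => Nat.rec (fun _ => default)
    (fun n f => Function.update f n (Φ f n)) n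
  have hFF : ∀ n, FF (n + 1) = Function.update (FF n) n (Φ (FF n) n) := fun n => rfl
  have key : ∀ n m, m < n → FF n m = FF (m + 1) m := by
    intro n
    induction n with
    | zero => intro m hm; omega
    | succ n ih =>
      intro m hm
      rcases Nat.lt_succ_iff_lt_or_eq.1 hm with h | rfl
      · rw [hFF, Function.update_of_ne h.ne, ih m h]
      · rfl
  refine ⟨fun m => FF (m + 1) m, fun n => ?_⟩
  simp only
  rw [hFF, Function.update_self]
  exact hΦ _ _ _ fun m hm => key n m hm

theorem discrete_ivt (p : ℕ → Prop) [DecidablePred p] (g c : ℕ) :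
    ∀ n, c < ((Finset.Ico g n).filter p).card →
      ∃ m ∈ Finset.Ico g n, ((Finset.Ico g m).filter p).card = c ∧ p m := by
  intro n
  induction n with
  | zero => simp
  | succ n ih =>
    intro h
    by_cases hg : g ≤ n
    · by_cases h' : c < ((Finset.Ico g n).filter p).card
      · obtain ⟨m, hm, h1, h2⟩ := ih h'
        refine ⟨m, ?_, h1, h2⟩
        simp only [Finset.mem_Ico] at hm ⊢
        omega
      · rw [Nat.Ico_succ_right_eq_insert_Ico hg, Finset.filter_insert] at h
        by_cases hp : p n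
        · rw [if_pos hp, Finset.card_insert_of_notMem (by simp)] at h
          exact ⟨n, by simp [hg], by omega, hp⟩
        · rw [if_neg hp] at h
          exact absurd h h'
    · rw [Finset.Ico_eq_empty (by omega)] at h
      simp at h

variable (G X : Type*) [Group G] [MulAction G X] [MeasurableSpace X]

/-- The data of the scheme. -/
structure Sch where
  T : ℕ → Set G
  good : ∀ k, Good (T k)
  mono : Monotone T
  μ : ℕ → ℕ
  b : ℕ → ℕ
  μ0 : μ 0 = 1
  hμ : ∀ k, μ (k + 1) = 4 * μ k + 2 * b k + 1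
  R : ℕ → X → X → Prop
  col : ℕ → X → ℕ
  eqv : ∀ k, Equivalence (R k)
  measR : ∀ k, Measurable fun p : X × X => R k p.1 p.2
  measc : ∀ k, Measurable (col k)
  bdd : ∀ k x y, R k x y → Near (T k) (b k) x y
  colR : ∀ k x y, R k x y → col k x = col k y
  sep : ∀ k x y, col k x = col k y → Near (T k) (3 * μ k) x y → R k x y
  gen : ℕ → ℕ
  N : ℕ → ℕ
  D : ℕ → ℕ
  colD : ∀ k x, col k x < D (gen k)
  hN : ∀ g, N (g + 1) = N g + (D (g + 1) + 2)
  hgen : ∀ g k, N g ≤ k → k < N (g + 1) → gen k = g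
  exh : ∀ γ : G, ∃ g, γ ∈ T (N g)

variable {G X}

/-- the relation `F` cuts the set `A` -/
def Cut (F : X → X → Prop) (A : X → Prop) : Prop := ∃ y, A y ∧ ∃ z, A z ∧ ¬ F y z

omit [MeasurableSpace X] in
theorem Cut.mono {F : X → X → Prop} {A B : X → Prop} (h : ∀ y, A y → B y) (hc : Cut F A) :
    Cut F B := by
  obtain ⟨y, hy, z, hz, h'⟩ := hc
  exact ⟨y, h y hy, z, h z hz, h'⟩

theorem meas_cut [Countable G] [MeasurableConstSMul G X] {F A : X → X → Prop}
    (hF : Measurable fun p : X × X => F p.1 p.2) (hA : Measurable fun p : X × X => A p.1 p.2)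
    (horb : ∀ x y, A x y → ∃ γ : G, γ • x = y) : Measurable fun x => Cut F (A x) := by
  refine meas_exists (G := G) (π := id) (Q := fun x y => A x y ∧ ∃ z, A x z ∧ ¬ F y z)
    measurable_id (hA.and ?_) fun x y h => horb x y h.1
  refine meas_exists (G := G) (π := Prod.fst)
    (Q := fun (p : X × X) z => A p.1 z ∧ ¬ F p.2 z) measurable_fst ?_ fun p z h => horb _ _ h.1
  exact (meas_comp2 hA (by fun_prop) (by fun_prop)).and
    (meas_comp2 hF (by fun_prop) (by fun_prop)).not

namespace Sch

variable (s : Sch G X)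

/-- thickened pieces -/
def Th (k ρ : ℕ) (x y : X) : Prop := ∃ z, s.R k x z ∧ Near (s.T k) ρ z y

open Classical in
/-- protected pieces -/
def Prot (F : ℕ → X → X → Prop) (n k : ℕ) (x : X) : Prop :=
  ((Finset.Ico (s.gen k) n).filter fun m => Cut (F m) (s.Th k (s.μ k) x)).card = s.col k x ∧
    ∀ m ∈ Finset.Ico (s.gen k) n,
      Cut (F m) (s.Th k (4 * s.μ k + s.b k) x) → Cut (F m) (s.Th k (s.μ k) x)

/-- two points in a common protected thickened piece -/
def Pc (Pr : ℕ → X → Prop) (k : ℕ) (y z : X) : Prop :=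
  ∃ x, s.Th k (s.μ k) x y ∧ Pr k x ∧ s.Th k (s.μ k) x z

/-- the relation generated by the protected pieces of the first stages -/
def Gen (Pr : ℕ → X → Prop) : ℕ → X → X → Prop
  | 0 => fun x y => x = y
  | k + 1 => fun x y => Gen Pr k x y ∨ ∃ u, Gen Pr k x u ∧ ∃ v, s.Pc Pr k u v ∧ Gen Pr k v y

theorem Th_near {k ρ : ℕ} {x y : X} (h : s.Th k ρ x y) : Near (s.T k) (s.b k + ρ) x y := by
  obtain ⟨z, h1, h2⟩ := h
  exact (s.bdd k x z h1).trans h2

theorem Th_of_R {k ρ : ℕ} {x x' y : X} (hx : s.R k x x') (h : s.Th k ρ x' y) : s.Th k ρ x y := by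
  obtain ⟨z, h1, h2⟩ := h
  exact ⟨z, (s.eqv k).trans hx h1, h2⟩

theorem Pc_near {Pr : ℕ → X → Prop} {k : ℕ} {y z : X} (h : s.Pc Pr k y z) :
    Near (s.T k) (s.μ k + s.b k + s.μ k) y z := by
  obtain ⟨x, ⟨u, hu, hy⟩, -, ⟨v, hv, hz⟩⟩ := h
  exact ((hy.symm (s.good k)).trans
    (s.bdd k u v ((s.eqv k).trans ((s.eqv k).symm hu) hv))).trans hz

theorem Gen_near (Pr : ℕ → X → Prop) : ∀ k x y, s.Gen Pr k x y → Near (s.T k) (s.μ k) x y := by
  intro k
  induction k with
  | zero =>
    rintro x y rfl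
    exact Near.refl (s.good 0) _ _
  | succ k ih =>
    rintro x y (h | ⟨u, h1, v, h2, h3⟩)
    · exact ((ih x y h).mono (s.good k) (by rw [s.hμ]; omega)).mono_left (s.mono (Nat.le_succ k))
    · exact ((((ih x u h1).trans (s.Pc_near h2)).trans (ih v y h3)).mono (s.good k)
        (by rw [s.hμ]; omega)).mono_left (s.mono (Nat.le_succ k))

theorem Th_sub {k : ℕ} {x x' y y' : X} (hy : s.Th k (s.μ k) x y) (hy' : s.Th k (s.μ k) x' y')
    (hn : Near (s.T k) (s.μ k) y y') (w : X) (hw : s.Th k (s.μ k) x' w) :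
    s.Th k (4 * s.μ k + s.b k) x w := by
  obtain ⟨z, h1, h2⟩ := hy
  obtain ⟨z', h1', h2'⟩ := hy'
  obtain ⟨z'', h1'', h2''⟩ := hw
  refine ⟨z, h1, ?_⟩
  exact ((((h2.trans hn).trans (h2'.symm (s.good k))).trans
    (s.bdd k z' z'' ((s.eqv k).trans ((s.eqv k).symm h1') h1''))).trans h2'').mono (s.good k)
    (by omega)

theorem prot_sep {F : ℕ → X → X → Prop} {n k : ℕ} {x x' y y' : X} (hx : s.Prot F n k x)
    (hx' : s.Prot F n k x') (hy : s.Th k (s.μ k) x y) (hy' : s.Th k (s.μ k) x' y')
    (hn : Near (s.T k) (s.μ k) y y') : s.R k x x' := by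
  classical
  have hc : s.col k x = s.col k x' := by
    rw [← hx.1, ← hx'.1]
    congr 1
    refine Finset.filter_congr fun m hm => ⟨fun h => ?_, fun h => ?_⟩
    · exact hx'.2 m hm (h.mono (s.Th_sub hy' hy (hn.symm (s.good k))))
    · exact hx.2 m hm (h.mono (s.Th_sub hy hy' hn))
  obtain ⟨z, h1, h2⟩ := hy
  obtain ⟨z', h1', h2'⟩ := hy'
  have hz : s.R k z z' := by
    refine s.sep k z z' ?_ ?_
    · rw [← s.colR k x z h1, ← s.colR k x' z' h1', hc]
    · exact ((h2.trans hn).trans (h2'.symm (s.good k))).mono (s.good k) (by omega)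
  exact (s.eqv k).trans ((s.eqv k).trans h1 hz) ((s.eqv k).symm h1')

theorem Gen_eqv (F : ℕ → X → X → Prop) (n : ℕ) : ∀ k, Equivalence (s.Gen (s.Prot F n) k) := by
  intro k
  induction k with
  | zero => exact eq_equivalence
  | succ k ih =>
    refine ⟨fun x => Or.inl (ih.refl x), ?_, ?_⟩
    · rintro x y (h | ⟨u, h1, v, ⟨w, a1, a2, a3⟩, h3⟩)
      · exact Or.inl (ih.symm h)
      · exact Or.inr ⟨v, ih.symm h3, u, ⟨w, a3, a2, a1⟩, ih.symm h1⟩
    · rintro x y z (h | ⟨u, h1, v, ⟨w, a1, a2, a3⟩, h3⟩) (h' | ⟨u', h1', v', ⟨w', b1, b2, b3⟩, h3'⟩)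
      · exact Or.inl (ih.trans h h')
      · exact Or.inr ⟨u', ih.trans h h1', v', ⟨w', b1, b2, b3⟩, h3'⟩
      · exact Or.inr ⟨u, h1, v, ⟨w, a1, a2, a3⟩, ih.trans h3 h'⟩
      · have := s.prot_sep a2 b2 a3 b1 (s.Gen_near _ k _ _ (ih.trans h3 h1'))
        exact Or.inr ⟨u, h1, v', ⟨w, a1, a2, s.Th_of_R this b3⟩, h3'⟩

theorem Gen_mono (Pr : ℕ → X → Prop) {k k' : ℕ} (h : k ≤ k') {x y : X} (hxy : s.Gen Pr k x y) :
    s.Gen Pr k' x y := by
  induction h with
  | refl => exact hxy
  | step _ ih => exact Or.inl ih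

section meas

variable [Countable G] [MeasurableConstSMul G X] [MeasurableEq X]

theorem meas_Th (k ρ : ℕ) : Measurable fun p : X × X => s.Th k ρ p.1 p.2 := by
  refine meas_exists (G := G) (π := Prod.fst)
    (Q := fun (p : X × X) z => s.R k p.1 z ∧ Near (s.T k) ρ z p.2) measurable_fst ?_
    fun p z h => (s.bdd k _ _ h.1).orb
  exact (meas_comp2 (s.measR k) (by fun_prop) (by fun_prop)).and
    (meas_near _ _ (by fun_prop) (by fun_prop))

theorem meas_Prot {F : ℕ → X → X → Prop} {n : ℕ}
    (hF : ∀ m < n, Measurable fun p : X × X => F m p.1 p.2) (k : ℕ) :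
    Measurable (s.Prot F n k) := by
  have hc : ∀ ρ, ∀ m ∈ Finset.Ico (s.gen k) n, Measurable fun x => Cut (F m) (s.Th k ρ x) :=
    fun ρ m hm => meas_cut (G := G) (hF m (Finset.mem_Ico.1 hm).2) (s.meas_Th k ρ)
      fun x y h => (s.Th_near h).orb
  refine ((meas_count _ (hc _)).eq (s.measc k)).and (Measurable.forall fun m => ?_)
  by_cases hm : m ∈ Finset.Ico (s.gen k) n
  · exact measurable_const.imp ((hc _ m hm).imp (hc _ m hm))
  · simp [hm]

theorem meas_Gen {Pr : ℕ → X → Prop} (hP : ∀ k, Measurable (Pr k)) :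
    ∀ k, Measurable fun p : X × X => s.Gen Pr k p.1 p.2 := by
  intro k
  induction k with
  | zero => exact measurable_fst.eq measurable_snd
  | succ k ih =>
    have hPc : Measurable fun p : X × X => s.Pc Pr k p.1 p.2 := by
      refine meas_exists (G := G) (π := Prod.fst)
        (Q := fun (p : X × X) x => s.Th k (s.μ k) x p.1 ∧ Pr k x ∧ s.Th k (s.μ k) x p.2)
        measurable_fst ?_ fun p z h => ((s.Th_near h.1).symm (s.good k)).orb
      exact (meas_comp2 (s.meas_Th k _) (by fun_prop) (by fun_prop)).and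
        (((hP k).comp measurable_snd).and (meas_comp2 (s.meas_Th k _) (by fun_prop) (by fun_prop)))
    refine ih.or ?_
    refine meas_exists (G := G) (π := Prod.fst)
      (Q := fun (p : X × X) u => s.Gen Pr k p.1 u ∧ ∃ v, s.Pc Pr k u v ∧ s.Gen Pr k v p.2)
      measurable_fst ?_ fun p z h => (s.Gen_near _ _ _ _ h.1).orb
    refine (meas_comp2 ih (by fun_prop) (by fun_prop)).and ?_
    refine meas_exists (G := G) (π := Prod.snd)
      (Q := fun (p : (X × X) × X) v => s.Pc Pr k p.2 v ∧ s.Gen Pr k v p.1.2)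
      measurable_snd ?_ fun p z h => (s.Pc_near h.1).orb
    exact (meas_comp2 hPc (by fun_prop) (by fun_prop)).and
      (meas_comp2 ih (by fun_prop) (by fun_prop))

end meas

theorem exists_levels : ∃ F : ℕ → X → X → Prop, ∀ n, F n = s.Gen (s.Prot F n) (s.N (n + 1)) := by
  classical
  refine exists_rec (fun F n => s.Gen (s.Prot F n) (s.N (n + 1))) fun f g n h => ?_
  have : s.Prot f n = s.Prot g n := by
    funext k x
    unfold Prot
    congr 2
    · congr 1
      refine Finset.filter_congr fun m hm => ?_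
      rw [h m (Finset.mem_Ico.1 hm).2]
    · refine propext (forall₂_congr fun m hm => ?_)
      rw [h m (Finset.mem_Ico.1 hm).2]
  simp only [this]

theorem N_mono : Monotone s.N := monotone_nat_of_le_succ fun n => by rw [s.hN]; omega

theorem μ_mono : Monotone s.μ := monotone_nat_of_le_succ fun n => by rw [s.hμ]; omega

theorem ball_mono {k k' : ℕ} (h : k ≤ k') {x y : X} (hy : Near (s.T k) (s.μ k) x y) :
    Near (s.T k') (s.μ k') x y :=
  (hy.mono (s.good k) (s.μ_mono h)).mono_left (s.mono h)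

open Classical in
theorem count_le {F : ℕ → X → X → Prop} (hF : ∀ n, F n = s.Gen (s.Prot F n) (s.N (n + 1)))
    (n : ℕ) (x : X) : ∀ i g, g + i = n →
      ((Finset.Ico g n).filter fun m =>
        Cut (F m) (Near (s.T (s.N g)) (s.μ (s.N g)) x)).card ≤ s.D g := by
  intro i
  induction i with
  | zero =>
    rintro g rfl
    simp
  | succ i ih =>
    intro g hg
    by_contra hlt
    push Not at hlt
    have step : ∀ k, s.N g ≤ k → k < s.N (g + 1) → ∃ m ∈ Finset.Ico g n,
        Cut (F m) (Near (s.T (k + 1)) (s.μ (k + 1)) x) ∧ ¬ Cut (F m) (Near (s.T k) (s.μ k) x) := by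
      intro k hk1 hk2
      have hgen := s.hgen g k hk1 hk2
      have hsub : ∀ y, Near (s.T k) (s.μ k) x y → s.Th k (s.μ k) x y :=
        fun y hy => ⟨x, (s.eqv k).refl x, hy⟩
      have hcol : s.col k x <
          ((Finset.Ico g n).filter fun m => Cut (F m) (s.Th k (s.μ k) x)).card := by
        have h1 := s.colD k x
        rw [hgen] at h1
        refine h1.trans (hlt.trans_le (Finset.card_le_card fun m hm => ?_))
        rw [Finset.mem_filter] at hm ⊢
        exact ⟨hm.1, hm.2.mono fun y hy => hsub y (s.ball_mono hk1 hy)⟩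
      obtain ⟨m, hm, h1, h2⟩ := discrete_ivt _ g _ n hcol
      have hnp : ¬ s.Prot F m k x := by
        intro hp
        obtain ⟨y, hy, z, hz, hyz⟩ := h2
        apply hyz
        rw [hF m]
        have hle : k + 1 ≤ s.N (m + 1) :=
          (Nat.succ_le_of_lt hk2).trans (s.N_mono (by have := (Finset.mem_Ico.1 hm).1; omega))
        refine s.Gen_mono _ hle (Or.inr ⟨y, (s.Gen_eqv F m k).refl y, z, ⟨x, hy, hp, hz⟩,
          (s.Gen_eqv F m k).refl z⟩)
      unfold Prot at hnp
      rw [hgen] at hnp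
      push Not at hnp
      obtain ⟨m', hm', a1, a2⟩ := hnp (by convert h1)
      refine ⟨m', ?_, a1.mono fun y hy => ?_, fun h => a2 (h.mono hsub)⟩
      · simp only [Finset.mem_Ico] at hm hm' ⊢
        omega
      · exact ((s.Th_near hy).mono (s.good k) (by rw [s.hμ]; omega)).mono_left
          (s.mono (Nat.le_succ k))
    have grow : ∀ j, j ≤ s.D (g + 1) + 2 → j ≤ ((Finset.Ico g n).filter fun m =>
        Cut (F m) (Near (s.T (s.N g + j)) (s.μ (s.N g + j)) x)).card := by
      intro j
      induction j with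
      | zero => simp
      | succ j ihj =>
        intro hj
        obtain ⟨m, hm, a1, a2⟩ := step (s.N g + j) (by omega) (by rw [s.hN]; omega)
        refine Nat.succ_le_of_lt ((ihj (by omega)).trans_lt (Finset.card_lt_card ?_))
        rw [Finset.ssubset_iff_of_subset]
        · exact ⟨m, Finset.mem_filter.2 ⟨hm, a1⟩, fun h => a2 (Finset.mem_filter.1 h).2⟩
        · intro m' hm'
          rw [Finset.mem_filter] at hm' ⊢
          exact ⟨hm'.1, hm'.2.mono fun y hy => s.ball_mono (by omega) hy⟩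
    have h1 := grow _ le_rfl
    rw [← s.hN] at h1
    have h2 := ih (g + 1) (by omega)
    have h3 : ((Finset.Ico g n).filter fun m =>
        Cut (F m) (Near (s.T (s.N (g + 1))) (s.μ (s.N (g + 1))) x)) ⊆ insert g
        ((Finset.Ico (g + 1) n).filter fun m =>
        Cut (F m) (Near (s.T (s.N (g + 1))) (s.μ (s.N (g + 1))) x)) := by
      intro m hm
      simp only [Finset.mem_filter, Finset.mem_Ico, Finset.mem_insert] at hm ⊢
      by_cases hmg : m = g
      · exact Or.inl hmg
      · exact Or.inr ⟨⟨by omega, hm.1.2⟩, hm.2⟩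
    have h4 := (Finset.card_le_card h3).trans (Finset.card_insert_le _ _)
    omega

include s in
theorem hf [Countable G] [MeasurableConstSMul G X] [MeasurableEq X] : HF G X := by
  classical
  obtain ⟨F, hF⟩ := s.exists_levels
  have eqv : ∀ n, Equivalence (F n) := fun n => by rw [hF n]; exact s.Gen_eqv F n _
  have near : ∀ n x y, F n x y → Near (s.T (s.N (n + 1))) (s.μ (s.N (n + 1))) x y :=
    fun n x y h => s.Gen_near _ _ _ _ (by rw [hF n] at h; exact h)
  have meas : ∀ n, Measurable fun p : X × X => F n p.1 p.2 := by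
    intro n
    induction n using Nat.strong_induction_on with
    | _ n ih =>
      rw [hF n]
      exact s.meas_Gen (fun k => s.meas_Prot ih k) _
  refine ⟨fun N => ⟨fun x y => ∀ n, N ≤ n → F n x y, ⟨fun x n _ => (eqv n).refl x,
    fun h n hn => (eqv n).symm (h n hn), fun h h' n hn => (eqv n).trans (h n hn) (h' n hn)⟩⟩,
    ?_, ?_, ?_, ?_⟩
  · intro a b hab x y h n hn
    exact h n (hab.trans hn)
  · intro N
    exact measurableSet_setOfPred.2 (Measurable.forall fun n => measurable_const.imp (meas n))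
  · intro N x
    exact (Near.finite (s.good _) _ x).subset fun y hy => near N x y (hy N le_rfl)
  · intro x y
    constructor
    · rintro ⟨γ, rfl⟩
      obtain ⟨g, hg⟩ := s.exh γ
      have hx : Near (s.T (s.N g)) (s.μ (s.N g)) x x := Near.refl (s.good _) _ _
      have hy : Near (s.T (s.N g)) (s.μ (s.N g)) x (γ • x) := by
        refine Near.mono (s.good _) (m := 1) ?_ ⟨γ, by simpa using hg, rfl⟩
        rw [← s.μ0]
        exact s.μ_mono (Nat.zero_le _)
      have hfin : {m | g ≤ m ∧ Cut (F m) (Near (s.T (s.N g)) (s.μ (s.N g)) x)}.Finite := by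
        by_contra hinf
        obtain ⟨t, ht, hc⟩ := Set.Infinite.exists_subset_card_eq hinf (s.D g + 1)
        have := s.count_le hF (g + (t.sup id + 1)) x _ g rfl
        have h2 : t ⊆ (Finset.Ico g (g + (t.sup id + 1))).filter fun m =>
            Cut (F m) (Near (s.T (s.N g)) (s.μ (s.N g)) x) := by
          intro m hm
          have h3 := ht hm
          have h4 : id m ≤ t.sup id := Finset.le_sup hm
          simp only [Finset.mem_filter, Finset.mem_Ico]
          exact ⟨⟨h3.1, by simp only [id] at h4; omega⟩, h3.2⟩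
        have := Finset.card_le_card h2
        omega
      obtain ⟨B, hB⟩ := hfin.bddAbove
      refine ⟨B + g + 1, fun n hn => ?_⟩
      by_contra hne
      have := hB (⟨by omega, x, hx, _, hy, hne⟩ :
        n ∈ {m | g ≤ m ∧ Cut (F m) (Near (s.T (s.N g)) (s.μ (s.N g)) x)})
      omega
    · rintro ⟨N, h⟩
      exact (near N x y (h N le_rfl)).orb

end Sch

theorem hf_of_cp [Countable G] [MeasurableConstSMul G X] [MeasurableEq X]
    (h : ∀ S : Set G, Good S → ∃ D, CP X S D) : HF G X := by
  classical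
  obtain ⟨e, he⟩ := exists_surjective_nat G
  let S : ℕ → Set G := fun g => {γ | γ = 1 ∨ ∃ i ≤ g, γ = e i ∨ γ = (e i)⁻¹}
  have good : ∀ g, Good (S g) := by
    intro g
    refine ⟨?_, Or.inl rfl, ?_⟩
    · refine ((Set.finite_singleton 1).union (((Set.finite_Iic g).image e).union
        ((Set.finite_Iic g).image fun i => (e i)⁻¹))).subset ?_
      rintro γ (rfl | ⟨i, hi, rfl | rfl⟩)
      · exact Or.inl rfl
      · exact Or.inr (Or.inl ⟨i, hi, rfl⟩)
      · exact Or.inr (Or.inr ⟨i, hi, rfl⟩)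
    · rintro γ (rfl | ⟨i, hi, rfl | rfl⟩)
      · exact Or.inl inv_one
      · exact Or.inr ⟨i, hi, Or.inr rfl⟩
      · exact Or.inr ⟨i, hi, Or.inl (inv_inv _)⟩
  have Smono : Monotone S := by
    rintro a b hab γ (rfl | ⟨i, hi, h⟩)
    · exact Or.inl rfl
    · exact Or.inr ⟨i, hi.trans hab, h⟩
  choose D hD using fun g => h (S g) (good g)
  choose b R col h1 h2 h3 h4 h5 h6 h7 using hD
  let N : ℕ → ℕ := fun g => Nat.rec 0 (fun g n => n + (D (g + 1) + 2)) g
  have hN : ∀ g, N (g + 1) = N g + (D (g + 1) + 2) := fun g => rfl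
  have Nsm : StrictMono N := strictMono_nat_of_lt_succ fun g => by rw [hN]; omega
  have hex : ∀ k, ∃ g, k < N (g + 1) := fun k => ⟨k, (Nat.lt_succ_self k).trans_le (Nsm.id_le _)⟩
  let gen : ℕ → ℕ := fun k => Nat.find (hex k)
  have hgen : ∀ g k, N g ≤ k → k < N (g + 1) → gen k = g := by
    intro g k h1 h2
    refine (Nat.find_eq_iff _).2 ⟨h2, fun m hm hlt => ?_⟩
    have := Nsm.monotone (Nat.succ_le_of_lt hm)
    simp only [Nat.succ_eq_add_one] at this
    omega
  have gmono : Monotone gen := fun a c hac =>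
    Nat.find_mono fun g hg => hac.trans_lt hg
  let μ : ℕ → ℕ := fun k => Nat.rec 1 (fun k m => 4 * m + 2 * b (gen k) (3 * m) + 1) k
  let s : Sch G X :=
    { T := fun k => S (gen k)
      good := fun k => good _
      mono := fun a c hac => Smono (gmono hac)
      μ := μ
      b := fun k => b (gen k) (3 * μ k)
      μ0 := rfl
      hμ := fun k => rfl
      R := fun k => R (gen k) (3 * μ k)
      col := fun k => col (gen k) (3 * μ k)
      eqv := fun k => h1 _ _
      measR := fun k => h2 _ _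
      measc := fun k => h3 _ _
      bdd := fun k => h5 _ _
      colR := fun k => h6 _ _
      sep := fun k => h7 _ _
      gen := gen
      N := N
      D := D
      colD := fun k => h4 _ _
      hN := hN
      hgen := hgen
      exh := fun γ => by
        obtain ⟨i, rfl⟩ := he γ
        refine ⟨i, ?_⟩
        rw [hgen i (N i) le_rfl (Nsm (Nat.lt_succ_self i))]
        exact Or.inr ⟨i, le_rfl, Or.inl rfl⟩ }
  exact s.hf

end Pool.Agent.Lib.MP_5ff138_lc
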