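import Pool.Agent.Lib.MP_5ff138_lc.Defs
import Pool.Agent.Lib.MP_5ff138_lc.Greedy
import Pool.Agent.Lib.MP_5ff138_lc.Union

/- Marker sets, doubling, coloured partitions. -/

open Set
open scoped Pointwise

namespace Pool.Agent.Lib.MP_5ff138_lc

variable {G X : Type*} [Group G] [MulAction G X]

/-- the subgroup generated by `Δ ∩ S ^ n` -/
def KK (Δ : Subgroup G) (S : Set G) (n : ℕ) : Subgroup G :=
  Subgroup.closure ((Δ : Set G) ∩ S ^ n)

theorem KK_mono (Δ : Subgroup G) {S : Set G} (hS : Good S) {m n : ℕ} (h : m ≤ n) :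
    KK Δ S m ≤ KK Δ S n :=
  Subgroup.closure_mono (Set.inter_subset_inter_right _ (hS.pow_mono h))

theorem pow_mem_of_subset {S : Set G} {N : Subgroup G} (h : ∀ s ∈ S, s ∈ N) :
    ∀ n : ℕ, ∀ γ ∈ S ^ n, γ ∈ N := by
  intro n
  induction n with
  | zero =>
    intro γ hγ
    rw [pow_zero, Set.mem_one] at hγ
    rw [hγ]
    exact N.one_mem
  | succ n ih =>
    rw [pow_succ]
    rintro _ ⟨a, ha, b, hb, rfl⟩
    exact N.mul_mem (ih a ha) (h b hb)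

theorem KK_conj {Δ : Subgroup G} {S : Set G} (hS : Good S)
    (hn : ∀ s ∈ S, s ∈ Subgroup.normalizer (Δ : Set G)) {L n : ℕ} {γ : G} (hγ : γ ∈ S ^ L)
    {κ : G} (hκ : κ ∈ KK Δ S n) : γ * κ * γ⁻¹ ∈ KK Δ S (n + 2 * L) := by
  induction hκ using Subgroup.closure_induction with
  | mem x hx =>
    refine Subgroup.subset_closure ⟨?_, ?_⟩
    · exact (Subgroup.mem_normalizer_iff.1 (pow_mem_of_subset hn L γ hγ) x).1 hx.1
    · exact hS.pow_mono (by omega) (mul_mem_pow (mul_mem_pow hγ hx.2) (hS.inv_pow hγ))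
  | one => simp
  | mul x y _ _ hx hy =>
    have := Subgroup.mul_mem _ hx hy
    simpa [mul_assoc] using this
  | inv x _ hx =>
    have := Subgroup.inv_mem _ hx
    simpa [mul_assoc] using this

theorem KK_bdd (Δ : Subgroup G) {S : Set G} (hS : Good S) {n : ℕ}
    (hfin : (KK Δ S n : Set G).Finite) : ∃ N, ∀ κ ∈ KK Δ S n, κ ∈ S ^ N := by
  have h : ∀ κ ∈ KK Δ S n, ∃ N, κ ∈ S ^ N := by
    intro κ hκ
    induction hκ using Subgroup.closure_induction with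
    | mem x hx => exact ⟨n, hx.2⟩
    | one => exact ⟨0, by simp⟩
    | mul x y _ _ hx hy =>
      obtain ⟨a, ha⟩ := hx
      obtain ⟨b, hb⟩ := hy
      exact ⟨a + b, mul_mem_pow ha hb⟩
    | inv x _ hx =>
      obtain ⟨a, ha⟩ := hx
      exact ⟨a, hS.inv_pow ha⟩
  choose! N hN using h
  obtain ⟨B, hB⟩ := (hfin.image N).bddAbove
  exact ⟨B, fun κ hκ => hS.pow_mono (hB ⟨κ, hκ, rfl⟩) (hN κ hκ)⟩

theorem num1 (β t : ℕ) :
    (2 * ((2 * β + 2) * (2 * β + 2 + 2 ^ t)) + 1) ^ β ≤ 2 ^ ((2 * β + 2) * (2 * β + 2 + t)) := by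
  set a := 2 * β + 2 with ha
  have h1 : 2 * a ≤ 2 ^ a := by
    have := Nat.lt_two_pow_self (n := 2 * β + 1)
    rw [ha, pow_succ]
    omega
  have h2 : 1 ≤ 2 ^ t := Nat.one_le_two_pow
  have h3 : 2 * (a * (a + 2 ^ t)) + 1 ≤ 2 ^ (2 * a + t) := by
    have h4 : (2 * a) * (2 * a) ≤ 2 ^ a * 2 ^ a := Nat.mul_le_mul h1 h1
    have h5 : 2 * (a * a) + 2 * a + 1 ≤ (2 * a) * (2 * a) := by nlinarith
    calc 2 * (a * (a + 2 ^ t)) + 1 ≤ (2 * (a * a) + 2 * a + 1) * 2 ^ t := by nlinarith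
      _ ≤ 2 ^ a * 2 ^ a * 2 ^ t := Nat.mul_le_mul_right _ (h5.trans h4)
      _ = 2 ^ (2 * a + t) := by ring
  calc _ ≤ (2 ^ (2 * a + t)) ^ β := Nat.pow_le_pow_left h3 _
    _ = 2 ^ ((2 * a + t) * β) := by rw [← pow_mul]
    _ ≤ _ := Nat.pow_le_pow_right (by norm_num) (by nlinarith)

theorem num2 (β t : ℕ) : (2 ^ t) ^ 2 * β + 1 ≤ 2 ^ ((2 * β + 2) * (2 * β + 2 + t)) := by
  have h1 : β + 1 ≤ 2 ^ β := Nat.lt_two_pow_self
  have h2 : 1 ≤ (2 ^ t) ^ 2 := Nat.one_le_pow _ _ (by positivity)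
  calc (2 ^ t) ^ 2 * β + 1 ≤ (2 ^ t) ^ 2 * (β + 1) := by nlinarith
    _ ≤ (2 ^ t) ^ 2 * 2 ^ β := Nat.mul_le_mul_left _ h1
    _ = 2 ^ (t * 2 + β) := by rw [← pow_mul, ← pow_add]
    _ ≤ _ := Nat.pow_le_pow_right (by norm_num) (by nlinarith)

theorem doubling {v : ℕ → ℕ} {C d : ℕ} (h1 : ∀ n, 1 ≤ v n) (h2 : ∀ n, v n ≤ C * (n + 1) ^ d)
    (r : ℕ) : ∃ h, r ≤ h ∧ v (5 * h) ≤ 2 * 5 ^ d * v h := by
  by_contra hc
  push Not at hc
  have key : ∀ j, (2 * 5 ^ d) ^ j ≤ v (5 ^ j * r) := by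
    intro j
    induction j with
    | zero => simpa using h1 r
    | succ j ih =>
      have := hc (5 ^ j * r) (Nat.le_mul_of_pos_left _ (by positivity))
      calc (2 * 5 ^ d) ^ (j + 1) = 2 * 5 ^ d * (2 * 5 ^ d) ^ j := by ring
        _ ≤ 2 * 5 ^ d * v (5 ^ j * r) := Nat.mul_le_mul_left _ ih
        _ ≤ v (5 * (5 ^ j * r)) := this.le
        _ = _ := by congr 1; ring
  set j := C * (r + 1) ^ d with hj
  have h3 : 5 ^ j * r + 1 ≤ 5 ^ j * (r + 1) := by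
    have : 1 ≤ 5 ^ j := Nat.one_le_pow _ _ (by norm_num)
    nlinarith
  have h4 : 2 ^ j * (5 ^ d) ^ j ≤ j * (5 ^ d) ^ j :=
    calc 2 ^ j * (5 ^ d) ^ j = (2 * 5 ^ d) ^ j := by rw [mul_pow]
      _ ≤ C * (5 ^ j * r + 1) ^ d := (key j).trans (h2 _)
      _ ≤ C * (5 ^ j * (r + 1)) ^ d := Nat.mul_le_mul_left _ (Nat.pow_le_pow_left h3 _)
      _ = C * (r + 1) ^ d * (5 ^ d) ^ j := by rw [mul_pow, ← pow_mul, ← pow_mul, mul_comm j d]; ring
  have h5 := Nat.le_of_mul_le_mul_right h4 (by positivity)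
  exact absurd h5 (not_le.2 Nat.lt_two_pow_self)

theorem pigeon {Δ : Subgroup G} {S : Set G} (hS : Good S)
    (hn : ∀ s ∈ S, s ∈ Subgroup.normalizer (Δ : Set G)) {h D : ℕ}
    (hD : ((fun g : G => (g : G ⧸ Δ)) '' (S ^ (5 * h))).ncard ≤
      D * ((fun g : G => (g : G ⧸ Δ)) '' (S ^ h)).ncard)
    (f : Fin (D + 1) → G) (hf : ∀ i, f i ∈ S ^ (4 * h)) :
    ∃ i j, i ≠ j ∧ ∃ δ ∈ Δ, ∃ s ∈ S ^ (2 * h), f i * (f j)⁻¹ = δ * s := by
  by_contra hc
  push Not at hc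
  let φ : Fin (D + 1) × ((fun g : G => (g : G ⧸ Δ)) '' (S ^ h)) →
      ((fun g : G => (g : G ⧸ Δ)) '' (S ^ (5 * h))) := fun p => ⟨(f p.1)⁻¹ • p.2.1, by
        obtain ⟨s, hs, e⟩ := p.2.2
        refine ⟨(f p.1)⁻¹ * s, hS.pow_mono (by omega) (mul_mem_pow (hS.inv_pow (hf p.1)) hs), ?_⟩
        rw [← e]
        rfl⟩
  have hinj : Function.Injective φ := by
    rintro ⟨i, c, hc1⟩ ⟨j, c', hc2⟩ e
    simp only [φ, Subtype.mk.injEq] at e
    by_cases hij : i = j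
    · subst hij
      simp only [smul_left_cancel_iff] at e
      subst e
      rfl
    · exfalso
      obtain ⟨s, hs, rfl⟩ := hc1
      obtain ⟨t, ht, rfl⟩ := hc2
      have e' : (((f i)⁻¹ * s : G) : G ⧸ Δ) = ((f j)⁻¹ * t : G) := e
      rw [QuotientGroup.eq] at e'
      refine hc i j hij (s * (((f i)⁻¹ * s)⁻¹ * ((f j)⁻¹ * t)) * s⁻¹)
        ((Subgroup.mem_normalizer_iff.1 (pow_mem_of_subset hn h s hs) _).1 e') (s * t⁻¹)
        (hS.pow_mono (by omega) (mul_mem_pow hs (hS.inv_pow ht))) ?_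
      group
  have hfin : ∀ n, ((fun g : G => (g : G ⧸ Δ)) '' (S ^ n)).Finite :=
    fun n => (finite_pow hS.fin n).image _
  have := (hfin (5 * h)).to_subtype
  have hle := Nat.card_le_card_of_injective φ hinj
  rw [Nat.card_prod, Nat.card_eq_fintype_card, Fintype.card_fin, Nat.card_coe_set_eq,
    Nat.card_coe_set_eq] at hle
  have hpos : 0 < ((fun g : G => (g : G ⧸ Δ)) '' (S ^ h)).ncard :=
    (Set.ncard_pos (hfin h)).2 ⟨_, 1, Set.one_mem_pow hS.one, rfl⟩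
  nlinarith

variable [MeasurableSpace X] [Countable G] [MeasurableConstSMul G X] [MeasurableEq X]

theorem markers [MeasurableSpace.CountablySeparated X] {Δ : Subgroup G} {S : Set G} (hS : Good S)
    (hn : ∀ s ∈ S, s ∈ Subgroup.normalizer (Δ : Set G))
    (hK : ∀ a : ℕ, ∃ n : ℕ, 1 ≤ n ∧ (KK Δ S (a * n) : Set G).Finite ∧
      (KK Δ S (a * n) : Set G).ncard ≤ tow n) (L : ℕ) :
    ∃ (Kt : Subgroup G) (N : ℕ) (M : X → Prop), (∀ κ ∈ Kt, κ ∈ S ^ N) ∧ KK Δ S (5 * L) ≤ Kt ∧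
      Measurable M ∧ (∀ κ ∈ KK Δ S (5 * L), ∀ x, M x → M (κ • x)) ∧
      (∀ x, ∃ γ ∈ S ^ L, M (γ • x)) ∧
      ∀ γ ∈ S ^ L, ∀ x, M x → M (γ • x) → ∃ κ ∈ Kt, κ • x = γ • x := by
  set β := (S ^ L).ncard with hβ
  let m : ℕ → ℕ := fun k => (2 * β + 2) * (2 * β + 2 + tow k)
  set C := 2 ^ m 0 with hC
  obtain ⟨n, hn1, hfin, hcard⟩ := hK (5 * L + 2 * L * C + 2 * L)
  obtain ⟨k, rfl⟩ : ∃ k, n = k + 1 := ⟨n - 1, by omega⟩
  set Kt := KK Δ S ((5 * L + 2 * L * C + 2 * L) * (k + 1)) with hKt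
  obtain ⟨N, hN⟩ := KK_bdd Δ hS hfin
  have desc : ∀ k n, Col X (S ^ L) Kt (KK Δ S (n + 2 * L * k)) (2 ^ m k) →
      Col X (S ^ L) Kt (KK Δ S n) C := by
    intro k
    induction k with
    | zero => intro n h; simpa using h
    | succ k ih =>
      intro n h
      refine ih n (Col.mono (col_step (finite_pow hS.fin L) (K' := KK Δ S (n + 2 * L * k))
        (KK_mono Δ hS (by nlinarith)) (fun γ hγ κ hκ => ?_) h) le_rfl (num1 β (tow k)))
      exact KK_mono Δ hS (le_of_eq (by ring)) (KK_conj hS hn hγ hκ)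
  have hineq : 5 * L + 2 * L * C + 2 * L * k ≤ (5 * L + 2 * L * C + 2 * L) * (k + 1) :=
    Nat.le.intro (k := (5 * L + 2 * L * C) * k + 2 * L) (by ring)
  have h0 : Col X (S ^ L) Kt (KK Δ S (5 * L + 2 * L * C + 2 * L * k)) (2 ^ m k) := by
    refine (col_init (hS.pow L) Kt hfin).mono (KK_mono Δ hS hineq) ?_
    refine le_trans ?_ (num2 β (tow k))
    have : (Kt : Set G).ncard ^ 2 ≤ (2 ^ tow k) ^ 2 := Nat.pow_le_pow_left hcard _
    exact Nat.succ_le_succ (Nat.mul_le_mul_right β this)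
  obtain ⟨f, f1, f2, f3, f4⟩ := desc k _ h0
  refine ⟨Kt, N, fun x => gc (S ^ L) f x = 0, hN, KK_mono Δ hS (le_trans (by omega) hineq),
    (gc_meas _ f1).eq measurable_const, fun κ hκ x hx => ?_, gc_dom (hS.pow L) f,
    fun γ hγ x h1 h2 => f4 γ hγ x (gc_proper (hS.pow L) f x hγ (h2.trans h1.symm))⟩
  rw [← hx]
  refine (gc_inv (S ^ L) f (fun i x y => ∃ κ ∈ KK Δ S (5 * L + 2 * L * i), κ • x = y) C
    ?_ ?_ ?_ (f2 x) ⟨κ, by simpa using hκ, rfl⟩).symm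
  · rintro i hi x _ ⟨κ, hκ, rfl⟩
    exact (f3 κ (KK_mono Δ hS (by nlinarith) hκ) x).symm
  · rintro i x _ ⟨κ, hκ, rfl⟩ γ hγ
    exact ⟨γ, hγ, γ * κ * γ⁻¹, KK_mono Δ hS (le_of_eq (by ring)) (KK_conj hS hn hγ hκ),
      by simp [mul_smul]⟩
  · rintro i x _ ⟨κ, hκ, rfl⟩ γ hγ
    exact ⟨γ, hγ, γ * κ * γ⁻¹, KK_mono Δ hS (le_of_eq (by ring)) (KK_conj hS hn hγ hκ),
      by simp [mul_smul]⟩

/-- every marker near `x` is related to a marker near `y` -/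
def Cov (S : Set G) (Kt : Subgroup G) (M : X → Prop) (i j : ℕ) (x y : X) : Prop :=
  ∀ u, Near S i x u ∧ M u → ∃ w, (Near S j y w ∧ M w) ∧ ∃ κ ∈ Kt, κ • w = u

theorem meas_Cov (S : Set G) (Kt : Subgroup G) {M : X → Prop} (hM : Measurable M) (i j : ℕ) :
    Measurable fun p : X × X => Cov S Kt M i j p.1 p.2 := by
  refine meas_forall (G := G) (π := Prod.fst) (Q := fun (p : X × X) u => Near S i p.1 u ∧ M u)
    (P := fun (p : X × X) u => ∃ w, (Near S j p.2 w ∧ M w) ∧ ∃ κ ∈ Kt, κ • w = u) measurable_fst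
    ((meas_near _ _ (by fun_prop) (by fun_prop)).and (hM.comp measurable_snd)) ?_
    fun p u h => h.1.orb
  refine meas_exists (G := G) (π := fun p : (X × X) × X => p.1.2)
    (Q := fun (p : (X × X) × X) w => (Near S j p.1.2 w ∧ M w) ∧ ∃ κ ∈ Kt, κ • w = p.2)
    (by fun_prop) ?_ fun p w h => h.1.1.orb
  refine ((meas_near _ _ (by fun_prop) (by fun_prop)).and (hM.comp measurable_snd)).and ?_
  exact Measurable.exists fun κ => measurable_const.and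
    ((measurable_snd.const_smul κ).eq (by fun_prop))

theorem cp_of_markers {S : Set G} (hS : Good S) {D r L N : ℕ} (hr : D * r ≤ L) {Kt : Subgroup G}
    (hN : ∀ κ ∈ Kt, κ ∈ S ^ N) {M : X → Prop} (hM : Measurable M)
    (hdom : ∀ x, ∃ γ ∈ S ^ L, M (γ • x))
    (hcl : ∀ x, ∀ g : Fin (D + 1) → X, (∀ i, Near S (2 * L) x (g i) ∧ M (g i)) →
      ∃ i j, i ≠ j ∧ ∃ κ ∈ Kt, κ • g i = g j) :
    ∃ (b : ℕ) (R : X → X → Prop) (col : X → ℕ), Equivalence R ∧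
      Measurable (fun p : X × X => R p.1 p.2) ∧ Measurable col ∧ (∀ x, col x < D) ∧
      (∀ x y, R x y → Near S b x y) ∧ (∀ x y, R x y → col x = col y) ∧
      ∀ x y, col x = col y → Near S r x y → R x y := by
  have hst : ∀ x, ∃ j < D, Cov S Kt M (L + (j + 1) * r) (L + j * r) x x := by
    intro x
    by_contra hc
    push Not at hc
    have : ∀ j : Fin (D + 1), ∃ u, (Near S (L + j * r) x u ∧ M u) ∧
        ∀ i < (j : ℕ), ∀ w, (Near S (L + i * r) x w ∧ M w) → ∀ κ ∈ Kt, κ • w ≠ u := by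
      rintro ⟨j, hj⟩
      cases j with
      | zero =>
        obtain ⟨γ, hγ, h⟩ := hdom x
        exact ⟨γ • x, ⟨⟨γ, by simpa using hγ, rfl⟩, h⟩, fun i hi => by simp at hi⟩
      | succ j =>
        have := hc j (by omega)
        unfold Cov at this
        push Not at this
        obtain ⟨u, hu, h⟩ := this
        refine ⟨u, hu, fun i hi w hw => h w ⟨hw.1.mono hS ?_, hw.2⟩⟩
        have : i * r ≤ j * r := Nat.mul_le_mul_right _ (by simp only at hi; omega)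
        omega
    choose g hg1 hg2 using this
    obtain ⟨i, j, hij, κ, hκ, e⟩ := hcl x g fun i => ⟨(hg1 i).1.mono hS (by
      have : i * r ≤ D * r := Nat.mul_le_mul_right _ (by omega)
      omega), (hg1 i).2⟩
    rcases lt_or_gt_of_ne hij with h | h
    · exact hg2 j i h _ (hg1 i) κ hκ e
    · exact hg2 i j h _ (hg1 j) κ⁻¹ (Kt.inv_mem hκ) (by rw [← e]; simp)
  let col : X → ℕ := fun x => sInf {j | Cov S Kt M (L + (j + 1) * r) (L + j * r) x x}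
  have colm : Measurable col := meas_sInf fun j =>
    meas_comp2 (meas_Cov S Kt hM _ _) measurable_id measurable_id
  have colD : ∀ x, col x < D := fun x => by
    obtain ⟨j, hj, h⟩ := hst x
    exact (Nat.sInf_le (s := {j | Cov S Kt M (L + (j + 1) * r) (L + j * r) x x}) h).trans_lt hj
  have colS : ∀ x, Cov S Kt M (L + (col x + 1) * r) (L + col x * r) x x := fun x => by
    obtain ⟨j, hj, h⟩ := hst x
    exact Nat.sInf_mem (s := {j | Cov S Kt M (L + (j + 1) * r) (L + j * r) x x}) ⟨j, h⟩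
  have ctr : ∀ i x y z, Cov S Kt M i i x y → Cov S Kt M i i y z → Cov S Kt M i i x z := by
    intro i x y z h1 h2 u hu
    obtain ⟨w, hw, κ, hκ, rfl⟩ := h1 u hu
    obtain ⟨w', hw', κ', hκ', rfl⟩ := h2 w hw
    exact ⟨w', hw', κ * κ', Kt.mul_mem hκ hκ', mul_smul _ _ _⟩
  refine ⟨2 * L + N + 2 * L, fun x y => ∃ j, col x = j ∧ col y = j ∧
    Cov S Kt M (L + j * r) (L + j * r) x y ∧ Cov S Kt M (L + j * r) (L + j * r) y x, col,
    ⟨fun x => ?_, ?_, ?_⟩, ?_, colm, colD, ?_, ?_, ?_⟩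
  · exact ⟨_, rfl, rfl, fun u hu => ⟨u, hu, 1, Kt.one_mem, one_smul _ _⟩,
      fun u hu => ⟨u, hu, 1, Kt.one_mem, one_smul _ _⟩⟩
  · rintro x y ⟨j, h1, h2, h3, h4⟩
    exact ⟨j, h2, h1, h4, h3⟩
  · rintro x y z ⟨j, h1, h2, h3, h4⟩ ⟨j', h1', h2', h3', h4'⟩
    obtain rfl : j = j' := h2.symm.trans h1'
    exact ⟨j, h1, h2', ctr _ _ _ _ h3 h3', ctr _ _ _ _ h4' h4⟩
  · refine Measurable.exists fun j => ((colm.comp measurable_fst).eq measurable_const).and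
      (((colm.comp measurable_snd).eq measurable_const).and ((meas_Cov S Kt hM _ _).and ?_))
    exact meas_comp2 (meas_Cov S Kt hM _ _) measurable_snd measurable_fst
  · rintro x y ⟨j, h1, -, h3, -⟩
    obtain ⟨γ, hγ, h⟩ := hdom x
    have hx : Near S L x (γ • x) := ⟨γ, hγ, rfl⟩
    obtain ⟨w, hw, κ, hκ, e⟩ := h3 (γ • x) ⟨hx.mono hS (by omega), h⟩
    have hw2 : Near S N w (γ • x) := ⟨κ, hN κ hκ, e⟩
    have : j * r ≤ D * r := Nat.mul_le_mul_right _ (by rw [← h1]; exact (colD x).le)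
    exact ((hx.trans (hw2.symm hS)).trans (hw.1.symm hS)).mono hS (by omega)
  · rintro x y ⟨j, h1, h2, -⟩
    rw [h1, h2]
  · intro x y hc hxy
    refine ⟨col x, rfl, hc.symm, fun u hu => ?_, fun u hu => ?_⟩
    · rw [hc] at hu ⊢
      exact colS y u ⟨((hxy.symm hS).trans hu.1).mono hS (le_of_eq (by ring)), hu.2⟩
    · exact colS x u ⟨(hxy.trans hu.1).mono hS (le_of_eq (by ring)), hu.2⟩

theorem hf_of_tame [MeasurableSpace.CountablySeparated X] (hG : Tame G) : HF G X := by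
  refine hf_of_cp fun S hS => ?_
  obtain ⟨Δ, hn, ⟨C, d, hv⟩, hK⟩ := hG S hS.fin
  refine ⟨2 * 5 ^ d, fun r => ?_⟩
  obtain ⟨h, hh, hD⟩ := doubling (v := fun n => ((fun g : G => (g : G ⧸ Δ)) '' (S ^ n)).ncard)
    (fun n => (Set.ncard_pos ((finite_pow hS.fin n).image _)).2
      ⟨_, 1, Set.one_mem_pow hS.one, rfl⟩) hv (2 * 5 ^ d * r)
  obtain ⟨Kt, N, M, hN, hKt, hM, hinv, hdom, hind⟩ := markers (X := X) hS hn hK (2 * h)
  refine cp_of_markers hS (L := 2 * h) (by omega) hN hM hdom fun x g hg => ?_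
  choose f hf1 hf2 using fun i => (hg i).1
  obtain ⟨i, j, hij, δ, hδ, s, hs, e⟩ := pigeon hS hn hD f fun i => hS.pow_mono (by omega) (hf1 i)
  have hδK : δ ∈ KK Δ S (5 * (2 * h)) := by
    refine Subgroup.subset_closure ⟨hδ, ?_⟩
    have : δ = f i * (f j)⁻¹ * s⁻¹ := by rw [e]; simp
    rw [this]
    exact hS.pow_mono (by omega)
      (mul_mem_pow (mul_mem_pow (hf1 i) (hS.inv_pow (hf1 j))) (hS.inv_pow hs))
  have e2 : δ • s • g j = g i := by
    rw [← mul_smul, ← e, ← hf2 i, ← hf2 j, ← mul_smul]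
    simp
  have hM2 : M (s • g j) := by
    have := hinv _ (Subgroup.inv_mem _ hδK) _ (hg i).2
    rwa [← e2, inv_smul_smul] at this
  obtain ⟨κ, hκ, e3⟩ := hind s hs _ (hg j).2 hM2
  exact ⟨j, i, hij.symm, δ * κ, Kt.mul_mem (hKt hδK) hκ, by rw [mul_smul, e3, e2]⟩

end Pool.Agent.Lib.MP_5ff138_lc
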